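import Pool.Agent.QPI.Stmts

/-!
# Squad QPI, row A_NRM: the norm of a weighted homogeneous polynomial
-/

set_option autoImplicit false

namespace Pool.Agent.QPI.H86

open MvPolynomial

theorem a_lift {N₁ N₂ : ℕ} {ι : Type} [Fintype ι] [DecidableEq ι] (mat' : MatStmt)
    (l : Fin N₁ → ι → ℚ) (A : Fin N₂ → Matrix ι ι ℚ) (hA : ∀ v, (A v).IsSymm)
    (p : MvPolynomial (Fin N₁ ⊕ Fin N₂) ℚ) (μ : ℕ) (hp : IsWeightedHomogeneous wt p μ) :
    aeval (fun v => frm (mat l A v)) (lift p) =
      (X none : MvPolynomial (Option ι) ℚ) ^ μ * rename some (aeval (form l A) p) := by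
  obtain ⟨-, h0, h1, h2⟩ := mat' N₁ N₂ ι l A hA
  have hX : ∀ y : Fin N₁ ⊕ Fin N₂,
      aeval (fun v => frm (mat l A v)) (lift (X y : MvPolynomial (Fin N₁ ⊕ Fin N₂) ℚ)) =
        (X none : MvPolynomial (Option ι) ℚ) ^ wt y * rename some (form l A y) := by
    rintro (u | v)
    · unfold lift
      rw [aeval_X, Sum.elim_inl, aeval_X, h1]
      simp [wt]
    · unfold lift
      rw [aeval_X, Sum.elim_inr, map_mul, aeval_X, aeval_X, h0, h2]
      simp [wt]
  have hcomp : (aeval (fun v => frm (mat l A v))).comp lift =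
      aeval (fun y => (X none : MvPolynomial (Option ι) ℚ) ^ wt y * rename some (form l A y)) := by
    apply MvPolynomial.algHom_ext
    intro y
    rw [AlgHom.comp_apply, hX, aeval_X]
  have hcomp2 : (rename some : MvPolynomial ι ℚ →ₐ[ℚ] MvPolynomial (Option ι) ℚ).comp
      (aeval (form l A)) = aeval (fun y => rename some (form l A y)) := by
    apply MvPolynomial.algHom_ext
    intro y
    rw [AlgHom.comp_apply, aeval_X, aeval_X]
  have e1 : aeval (fun v => frm (mat l A v)) (lift p) =
      aeval (fun y => (X none : MvPolynomial (Option ι) ℚ) ^ wt y * rename some (form l A y)) p := by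
    rw [← hcomp]
    rfl
  have e2 : rename some (aeval (form l A) p) =
      aeval (fun y => rename some (form l A y)) p := by
    rw [← hcomp2]
    rfl
  rw [e1, e2, aeval_def, aeval_def, eval₂_eq', eval₂_eq', Finset.mul_sum]
  apply Finset.sum_congr rfl
  intro α hα
  have hw : ∑ y, α y * wt y = μ := by
    have h3 := hp (mem_support_iff.1 hα)
    rw [Finsupp.weight_apply, Finsupp.sum_fintype _ _ (fun i => zero_smul ℕ (wt i))] at h3
    exact h3
  have h4 : ∏ y, ((X none : MvPolynomial (Option ι) ℚ) ^ wt y * rename some (form l A y)) ^ α y =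
      (X none : MvPolynomial (Option ι) ℚ) ^ μ * ∏ y, rename some (form l A y) ^ α y := by
    have h5 : ∀ y, ((X none : MvPolynomial (Option ι) ℚ) ^ wt y *
        rename some (form l A y)) ^ α y = (X none : MvPolynomial (Option ι) ℚ) ^ (α y * wt y) *
          rename some (form l A y) ^ α y := by
      intro y
      rw [mul_pow, ← pow_mul, mul_comm (wt y)]
    rw [Finset.prod_congr rfl (fun y _ => h5 y), Finset.prod_mul_distrib, Finset.prod_pow_eq_pow_sum,
      hw]
  rw [h4]
  ring

theorem a_nrm (pos : PosStmt) (gam : GamStmt) (mat' : MatStmt) : NrmStmt := by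
  intro N₁ N₂ ι _ _ l A hA p μ hp
  have e : nrm l A p = Ex ((X none ^ μ * rename some (aeval (form l A) p)) ^ 2) := by
    unfold nrm
    rw [gam (Option ι) (Option (Fin N₁ ⊕ Fin N₂)) (mat l A) (mat' N₁ N₂ ι l A hA).1, map_pow,
      a_lift mat' l A hA p μ hp]
  refine ⟨e, ?_, ?_⟩
  · intro h
    rw [e, sq] at h
    have h1 := pos (Option ι) _ h
    rcases mul_eq_zero.1 h1 with h2 | h2
    · exact absurd h2 (pow_ne_zero _ (X_ne_zero _))
    · exact rename_injective some (Option.some_injective ι) (by rw [h2, map_zero])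
  · intro h
    rw [e, h, map_zero, mul_zero]
    unfold Ex
    simp

end Pool.Agent.QPI.H86
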